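import Mathlib

/-!
MP_922865_al: groups with a nontrivial action in which two non-identity elements have disjoint
supports have a non-simple augmentation ideal.

Idea.  The kernel of the permutation module is a nonzero ideal: it contains `(g - 1)(h - 1)`.
-/

set_option autoImplicit false

namespace Pool.Agent.Results.MP_922865_al.DisjointSupports

universe u v w

/-- The permutation module. -/
noncomputable def Phi (P : Type u) [Field P] (H : Type v) [Group H] (X : Type w) [MulAction H X] :
    MonoidAlgebra P H →ₐ[P] Module.End P (X →₀ P) :=
  MonoidAlgebra.lift P _ H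
    { toFun := fun g => Finsupp.lmapDomain P P (fun x => g • x)
      map_one' := by
        apply LinearMap.ext
        intro f
        show Finsupp.mapDomain (fun x => (1 : H) • x) f = f
        simp only [one_smul]
        exact Finsupp.mapDomain_id
      map_mul' := fun g h => by
        apply LinearMap.ext
        intro f
        show Finsupp.mapDomain (fun x => (g * h) • x) f =
          Finsupp.mapDomain (fun x => g • x) (Finsupp.mapDomain (fun x => h • x) f)
        rw [← Finsupp.mapDomain_comp]
        congr 1
        funext x
        exact mul_smul g h x }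

theorem Phi_single (P : Type u) [Field P] (H : Type v) [Group H] (X : Type w) [MulAction H X]
    (g : H) (r : P) (x : X) : Phi P H X (MonoidAlgebra.single g r) (Finsupp.single x 1) =
      Finsupp.single (g • x) r := by
  rw [Phi, MonoidAlgebra.lift_single, LinearMap.smul_apply]
  show r • Finsupp.mapDomain (fun x => g • x) (Finsupp.single x 1) = _
  rw [Finsupp.mapDomain_single, Finsupp.smul_single, smul_eq_mul, mul_one]

/-- Let `P` be a field and let the group `H` act on a set `X`, not trivially. Let `g, h ∈ H` be
different from `1`, and suppose that every point of `X` is fixed by `g` or by `h`. Then the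
augmentation ideal `A` of `P[H]` is not a simple ring: there is a two-sided ideal `I` of `P[H]` with
`0 ≠ I ⊂ A` and `I ≠ A`. -/
theorem result (P : Type u) [Field P] (H : Type v) [Group H] (X : Type w) [MulAction H X]
    (t : H) (x₀ : X) (ht : t • x₀ ≠ x₀) (g h : H) (hg : g ≠ 1) (hh : h ≠ 1)
    (hsupp : ∀ x : X, g • x = x ∨ h • x = x) :
    ∃ I : AddSubgroup (MonoidAlgebra P H),
      (∀ a ∈ I, a.coeff.sum (fun _ r => r) = 0) ∧
      (∃ a ∈ I, a ≠ 0) ∧
      (∃ a : MonoidAlgebra P H, a.coeff.sum (fun _ r => r) = 0 ∧ a ∉ I) ∧
      (∀ a ∈ I, ∀ b : MonoidAlgebra P H, a * b ∈ I ∧ b * a ∈ I) := by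
  classical
  have hsum : ∀ a : MonoidAlgebra P H, a.coeff.sum (fun _ r => r) =
      Finsupp.linearCombination P (fun _ : X => (1 : P)) (Phi P H X a (Finsupp.single x₀ 1)) := by
    intro a
    induction a using MonoidAlgebra.induction_linear with
    | zero => simp
    | add a b ha hb =>
      rw [map_add, LinearMap.add_apply, map_add, ← ha, ← hb, MonoidAlgebra.coeff_add,
        Finsupp.sum_add_index']
      · intro _; rfl
      · intro _ _ _; rfl
    | single g r =>
      rw [Phi_single, Finsupp.linearCombination_single, smul_eq_mul, mul_one,
        MonoidAlgebra.coeff_single, Finsupp.sum_single_index rfl]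
  refine ⟨(RingHom.ker (Phi P H X).toRingHom).toAddSubgroup, ?_, ?_, ?_, ?_⟩
  · intro a ha
    have ha' : Phi P H X a = 0 := ha
    rw [hsum, ha', LinearMap.zero_apply, map_zero]
  · -- a nonzero element
    have triv : ∀ g : H, g ≠ 1 → (∀ x : X, g • x = x) →
        ∃ a ∈ (RingHom.ker (Phi P H X).toRingHom).toAddSubgroup, a ≠ 0 := by
      intro g hg hx
      refine ⟨MonoidAlgebra.single g 1 - MonoidAlgebra.single 1 1, ?_, ?_⟩
      · show Phi P H X _ = 0
        apply Finsupp.lhom_ext'
        intro x
        apply LinearMap.ext_ring
        show Phi P H X (MonoidAlgebra.single g 1 - MonoidAlgebra.single 1 1)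
          (Finsupp.single x 1) = 0
        rw [map_sub, LinearMap.sub_apply, Phi_single, Phi_single, hx, one_smul, sub_self]
      · intro h0
        have h1 := congrArg (fun z : MonoidAlgebra P H => z.coeff g) h0
        simp only [MonoidAlgebra.coeff_sub, MonoidAlgebra.coeff_single, Finsupp.sub_apply,
          MonoidAlgebra.coeff_zero, Finsupp.zero_apply, Finsupp.single_eq_same] at h1
        rw [Finsupp.single_apply, if_neg (Ne.symm hg), sub_zero] at h1
        exact one_ne_zero h1
    by_cases hg0 : ∀ x : X, g • x = x
    · exact triv g hg hg0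
    by_cases hh0 : ∀ x : X, h • x = x
    · exact triv h hh hh0
    push Not at hg0 hh0
    obtain ⟨x₁, hx₁⟩ := hg0
    have hgh : g * h ≠ 1 := by
      intro h1
      apply hx₁
      have h2 : h • x₁ = x₁ := (hsupp x₁).resolve_left hx₁
      calc g • x₁ = g • (h • x₁) := by rw [h2]
        _ = x₁ := by rw [smul_smul, h1, one_smul]
    refine ⟨(MonoidAlgebra.single g 1 - MonoidAlgebra.single 1 1) *
      (MonoidAlgebra.single h 1 - MonoidAlgebra.single 1 1), ?_, ?_⟩
    · show Phi P H X _ = 0
      apply Finsupp.lhom_ext'
      intro x
      apply LinearMap.ext_ring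
      show Phi P H X ((MonoidAlgebra.single g 1 - MonoidAlgebra.single 1 1) *
        (MonoidAlgebra.single h 1 - MonoidAlgebra.single 1 1)) (Finsupp.single x 1) = 0
      have e1 : Phi P H X (MonoidAlgebra.single h 1 - MonoidAlgebra.single 1 1)
          (Finsupp.single x 1) = Finsupp.single (h • x) 1 - Finsupp.single x 1 := by
        rw [map_sub, LinearMap.sub_apply, Phi_single, Phi_single, one_smul]
      rw [map_mul, Module.End.mul_apply, e1, map_sub (Phi P H X)]
      by_cases hx : h • x = x
      · rw [hx, sub_self, map_zero]
      · have h1 : g • x = x := (hsupp x).resolve_right hx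
        have h2 : g • (h • x) = h • x := by
          refine (hsupp (h • x)).resolve_right ?_
          intro h3
          exact hx (MulAction.injective h h3)
        rw [map_sub, LinearMap.sub_apply, LinearMap.sub_apply, Phi_single, Phi_single, Phi_single,
          Phi_single, h1, h2, one_smul, one_smul, sub_self, sub_self, sub_self]
    · intro h0
      have h1 := congrArg (fun z : MonoidAlgebra P H => z.coeff 1) h0
      rw [sub_mul, mul_sub, mul_sub, MonoidAlgebra.single_mul_single,
        MonoidAlgebra.single_mul_single, MonoidAlgebra.single_mul_single,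
        MonoidAlgebra.single_mul_single] at h1
      simp only [MonoidAlgebra.coeff_sub, MonoidAlgebra.coeff_single, Finsupp.sub_apply,
        MonoidAlgebra.coeff_zero, Finsupp.zero_apply, mul_one, one_mul,
        Finsupp.single_eq_same] at h1
      rw [Finsupp.single_apply, if_neg hgh, Finsupp.single_apply, if_neg hg, Finsupp.single_apply,
        if_neg hh] at h1
      simp at h1
  · refine ⟨MonoidAlgebra.single t 1 - MonoidAlgebra.single 1 1, ?_, ?_⟩
    · rw [hsum, map_sub, LinearMap.sub_apply, Phi_single, Phi_single, map_sub,
        Finsupp.linearCombination_single, Finsupp.linearCombination_single, sub_self]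
    · intro h0
      have h1 : Phi P H X (MonoidAlgebra.single t 1 - MonoidAlgebra.single 1 1) = 0 := h0
      have h2 := congrArg (fun φ : Module.End P (X →₀ P) => φ (Finsupp.single x₀ 1) (t • x₀)) h1
      simp only [map_sub, LinearMap.sub_apply, Phi_single, one_smul, Finsupp.sub_apply,
        Finsupp.single_eq_same, LinearMap.zero_apply, Finsupp.zero_apply] at h2
      rw [Finsupp.single_apply, if_neg (Ne.symm ht), sub_zero] at h2
      exact one_ne_zero h2
  · intro a ha b
    have ha' : Phi P H X a = 0 := ha
    constructor
    · show Phi P H X (a * b) = 0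
      rw [map_mul, ha', zero_mul]
    · show Phi P H X (b * a) = 0
      rw [map_mul, ha', mul_zero]

end Pool.Agent.Results.MP_922865_al.DisjointSupports
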